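import Pool.Agent.Lib.MP_ada39e_an.Measure

/-!
A finite energy solution of a complex Monge-Ampere equation on `P^1 × P^1` whose density is
smooth and positive off a divisor, but which is not differentiable off the divisor.
-/

namespace Pool.Agent.Results.MP_ada39e_an.NotSmooth

open Pool.Agent.Lib.MP_ada39e_an MeasureTheory
open scoped ContDiff

theorem result : ∃ (f : X → ℝ) (φ : X → EReal),
    maSmooth 0 Set.univ = 8 ∧
    Measurable f ∧ (∀ x, 0 ≤ f x) ∧ Integrable f (maSmooth 0) ∧ ∫ x, f x ∂(maSmooth 0) = 8 ∧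
    ContDiffOn ℝ ∞ (f ∘ chart false false) {p | p.1 ≠ 0} ∧
    (∀ p : ℂ × ℂ, p.1 ≠ 0 → 0 < f (chart false false p)) ∧
    PSH φ ∧ IsNPMA φ ((maSmooth 0).withDensity fun x => ENNReal.ofReal (f x)) ∧
    (∀ p, φ (chart false false p) ≠ ⊥ ∧ φ (chart false false p) ≠ ⊤) ∧
    ¬ DifferentiableAt ℝ (fun p => (φ (chart false false p)).toReal) (1, 0) := by
  have h1 : ∫⁻ x, ENNReal.ofReal (fX x) ∂(maSmooth 0) = 8 := by
    rw [← setLIntegral_univ, ← withDensity_apply _ MeasurableSet.univ, density_eq,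
      chart_emb.map_apply, Set.preimage_univ, mass_F]
  refine ⟨fX, phi, mass_zero, fX_meas, fX_nonneg, ⟨fX_meas.aestronglyMeasurable, ?_⟩, ?_, ?_,
    fun p hp => ?_, psh_phi, density_eq ▸ npma_phi,
    fun p => ⟨phi_ne_bot p, ((phi_le _).trans_lt (EReal.coe_lt_top _)).ne⟩, not_diff⟩
  · rw [hasFiniteIntegral_iff_ofReal (ae_of_all _ fX_nonneg), h1]; simp
  · rw [integral_eq_lintegral_of_nonneg_ae (ae_of_all _ fX_nonneg) fX_meas.aestronglyMeasurable,
      h1]
    simp
  · rw [fX_chart]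
    exact fun p hp => (ft_smooth hp).contDiffWithinAt
  · exact (ft_pos hp).trans_eq (congrFun fX_chart p).symm

end Pool.Agent.Results.MP_ada39e_an.NotSmooth
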