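import Pool.Agent.Lib.MP_ada39e_an.UbMeasure

/-!
A finite energy solution of a complex Monge-Ampere equation on `P^1 × P^1` whose density is
smooth and bounded below by a positive constant off one point, but whose polar set is a curve.
-/

namespace Pool.Agent.Results.MP_ada39e_an.Unbounded

open Pool.Agent.Lib.MP_ada39e_an MeasureTheory
open scoped ContDiff

theorem result : ∃ (f : X → ℝ) (φ : X → EReal),
    maSmooth 0 Set.univ = 8 ∧
    Measurable f ∧ (∀ x, 0 ≤ f x) ∧ Integrable f (maSmooth 0) ∧ ∫ x, f x ∂(maSmooth 0) = 8 ∧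
    (∀ i j p, chart i j p ≠ chart true false 0 →
      ContDiffAt ℝ ∞ (f ∘ chart i j) p ∧ 1 / 20 ≤ f (chart i j p)) ∧
    PSH φ ∧ IsNPMA φ ((maSmooth 0).withDensity fun x => ENNReal.ofReal (f x)) ∧
    ∀ x : X, φ x = ⊥ ↔ x.2 = OnePoint.some 0 := by
  have h1 : ∫⁻ x, ENNReal.ofReal (Ub.fU x) ∂(maSmooth 0) = 8 := by
    rw [← setLIntegral_univ, ← withDensity_apply _ MeasurableSet.univ, Ub.density_eq',
      chart_emb.map_apply, Set.preimage_univ, Ub.mass_FF]
  refine ⟨Ub.fU, Ub.ps, mass_zero, Ub.fU_meas, Ub.fU_nonneg,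
    ⟨Ub.fU_meas.aestronglyMeasurable, ?_⟩, ?_, fun i j p h => ⟨Ub.fU_smooth h, Ub.le_fU h⟩,
    Ub.psh_ps, Ub.density_eq' ▸ Ub.npma_ps, Ub.ps_bot⟩
  · rw [hasFiniteIntegral_iff_ofReal (ae_of_all _ Ub.fU_nonneg), h1]; simp
  · rw [integral_eq_lintegral_of_nonneg_ae (ae_of_all _ Ub.fU_nonneg)
      Ub.fU_meas.aestronglyMeasurable, h1]
    simp

end Pool.Agent.Results.MP_ada39e_an.Unbounded
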